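import Pool.Agent.H82.PD.Defs

/-!
Local smoothing for data with a positivity property, all dimensions: targets.
-/

set_option autoImplicit false

namespace Pool.Agent.H82.PD

open MeasureTheory Set FourierTransform Pool.Agent.H82.KL Pool.Agent.H94.C1
open scoped ENNReal NNReal SchwartzMap

/-- LCK: local kernel inequality at frequency one and time `±R` -/
def T_LCK : Prop := ∀ (d M : ℕ) (p : ℝ) (a : EE d → ℂ), 3 ≤ d → 2 < p → Sym a →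
  ∃ C : ℝ≥0, ∀ (R ε : ℝ) (f : EE d → ℂ), 1 ≤ R → (ε = 1 ∨ ε = -1) → BM f →
  ∫⁻ t in Icc R (2 * R), ∫⁻ x : EE d, ‖W a f (x, ε * t)‖ₑ ^ p ≤
    C * (if p ≤ 3 then
      ENNReal.ofReal (R ^ (3 - p - ((d : ℝ) - 1) * (p - 2) / 2)) *
        ∫⁻ x, ‖f x‖ₑ ^ 2 * kaB (8 * R) R (fun y => ‖f y‖ₑ) x ^ (p - 2)
      else ENNReal.ofReal (R ^ (((d : ℝ) - 1) * (p - 3) - ((d : ℝ) - 1) * (p - 2) / 2)) *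
        ∫⁻ x, ‖f x‖ₑ ^ 2 * kaB (8 * R) R (fun y => ‖f y‖ₑ ^ (p - 2)) x) +
    C * ENNReal.ofReal ((R ^ M)⁻¹) * ∫⁻ x, ‖f x‖ₑ ^ p

/-- RSC: local kernel inequality at frequency `λ` and time one -/
def T_RSC : Prop := ∀ (d M : ℕ) (p : ℝ) (a : EE d → ℂ), 3 ≤ d → 2 < p → Sym a →
  ∃ C : ℝ≥0, ∀ (lam ε : ℝ) (u : 𝓢(EE d, ℂ)), 1 ≤ lam → (ε = 1 ∨ ε = -1) →
  ∫⁻ t in Icc (1 : ℝ) 2, ∫⁻ x : EE d, ‖HP a ε lam t u x‖ₑ ^ p ≤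
    C * ENNReal.ofReal (lam ^ (((d : ℝ) - 1) * (p - 2) / 2)) * KB p (fun y => ‖u y‖ₑ) +
    C * ENNReal.ofReal ((lam ^ M)⁻¹) * ∫⁻ x, ‖u x‖ₑ ^ p

/-- SHD: decomposition of the local potential into dyadic balls -/
def T_SHD : Prop := ∀ (d : ℕ) (C₀ : ℝ≥0), 3 ≤ d → ∃ C : ℝ≥0, ∀ lam : ℝ, 1 ≤ lam →
  ∃ J : ℕ, (J : ℝ) ≤ C * (1 + Real.log lam) ∧ (∀ j < J, 1 / lam ≤ 8 / 2 ^ j) ∧
  ∀ G : EE d → ℝ≥0∞, Measurable G → (∀ x y, ‖x - y‖ ≤ 1 / lam → G y ≤ C₀ * G x) → ∀ x,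
  k2B G x ≤ C * (ENNReal.ofReal (lam ^ (-((d : ℝ) - 2))) * G x +
    ∑ j ∈ Finset.range J, ENNReal.ofReal (((8 / 2 ^ j : ℝ) ^ 2)⁻¹) * ba (8 / 2 ^ j) G x)

/-- RVA: the real variable inequality, `2 < p ≤ 3` -/
def T_RVA : Prop := ∀ (d : ℕ) (p κ : ℝ) (C₀ : ℝ≥0), 3 ≤ d → 2 < p → p ≤ 3 → 0 < κ →
  ∃ C : ℝ≥0, ∀ (lam : ℝ) (F V : EE d → ℝ≥0∞), 1 ≤ lam → Measurable F → Measurable V →
  (∀ x y, ‖x - y‖ ≤ 1 / lam → F y ≤ C₀ * F x) →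
  (∀ x, F x ≤ ENNReal.ofReal (lam ^ κ) * V x) →
  (∀ b x, 1 / lam ≤ b → b ≤ 16 → ba b F x ≤ ENNReal.ofReal (b ^ ((d : ℝ) - κ)) * V x) →
  KB p F ≤ C * ENNReal.ofReal ((1 + Real.log lam) * (lam ^ (κ * p / (p - 1)) +
    lam ^ (κ * p - ((d : ℝ) - 2) * (p - 2)))) * ∫⁻ x, V x ^ p

/-- RVB: the real variable inequality, `p > 3` -/
def T_RVB : Prop := ∀ (d : ℕ) (p κ : ℝ) (C₀ : ℝ≥0), 3 ≤ d → 3 < p → 0 < κ →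
  ∃ C : ℝ≥0, ∀ (lam : ℝ) (F V : EE d → ℝ≥0∞), 1 ≤ lam → Measurable F → Measurable V →
  (∀ x y, ‖x - y‖ ≤ 1 / lam → F y ≤ C₀ * F x) →
  (∀ x, F x ≤ ENNReal.ofReal (lam ^ κ) * V x) →
  (∀ b x, 1 / lam ≤ b → b ≤ 16 → ba b F x ≤ ENNReal.ofReal (b ^ ((d : ℝ) - κ)) * V x) →
  KB p F ≤ C * ENNReal.ofReal ((1 + Real.log lam) * (lam ^ (κ * p * (p - 2) / (p - 1)) +
    lam ^ (κ * p - ((d : ℝ) - 2)))) * ∫⁻ x, V x ^ p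

/-- PSI: properties of the averages `cp` -/
def T_PSI : Prop := ∀ (d : ℕ) (κ p : ℝ), 1 ≤ d → 0 < κ → 1 ≤ p → ∃ C : ℝ≥0, ∀ lam : ℝ, 1 ≤ lam →
  (∀ G : EE d → ℝ≥0∞, Measurable G → Measurable (cp lam G) ∧
    (∀ x y, ‖x - y‖ ≤ 1 / lam → cp lam G y ≤ C * cp lam G x) ∧
    ∫⁻ x, cp lam G x ^ p ≤ C * ∫⁻ x, G x ^ p) ∧
  ∀ (A : ℝ≥0∞) (G w : EE d → ℝ≥0∞), Measurable G → Measurable w →
    (∀ b x, 0 < b → b ≤ 16 → ba b G x ≤ A * ENNReal.ofReal (b ^ ((d : ℝ) - κ)) * w x) →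
    (∀ x, cp lam G x ≤ C * A * ENNReal.ofReal (lam ^ κ) * cp lam w x) ∧
    ∀ b x, 0 < b → b ≤ 16 → ba b (cp lam G) x ≤
      A * ENNReal.ofReal (b ^ ((d : ℝ) - κ)) * cp lam w x

/-- MAJ: majorants of frequency localized functions -/
def T_MAJ : Prop := ∀ (d : ℕ) (s : ℝ) (b : EE d → ℂ), 1 ≤ d → Sym b → ∃ C : ℝ≥0,
  ∀ (lam : ℝ) (u f : 𝓢(EE d, ℂ)), 1 ≤ lam →
  (∀ ξ, 𝓕 (f : EE d → ℂ) ξ = b (lam⁻¹ • ξ) * 𝓕 (u : EE d → ℂ) ξ) →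
  ∀ x, ‖f x‖ₑ ≤ C * ENNReal.ofReal (lam ^ (-s)) *
    cp lam (fun y => ‖Pool.Agent.H84.BR.CD.besS s u y‖ₑ) x

/-- BSC: Bessel potentials of Schwartz functions -/
def T_BSC : Prop := ∀ (d : ℕ) (s κ : ℝ) (u g : 𝓢(EE d, ℂ)), ∃ H : 𝓢(EE d, ℂ),
  (∀ x, H x = Pool.Agent.H84.BR.CD.besS s u x + 2 * g x) ∧
  ∀ x, Pool.Agent.H84.BR.CD.besS (-κ) H x =
    Pool.Agent.H84.BR.CD.besS (s - κ) u x + 2 * Pool.Agent.H84.BR.CD.besS (-κ) g x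

/-- BKL: lower bound for Bessel potentials of nonnegative functions -/
def T_BKL : Prop := ∀ (d : ℕ) (κ : ℝ), 1 ≤ d → 0 < κ → ∃ C : ℝ≥0, ∀ H : 𝓢(EE d, ℂ),
  NN (H : EE d → ℂ) → ∀ b x, 0 < b → b ≤ 16 → ba b (fun y => ‖H y‖ₑ) x ≤
    C * ENNReal.ofReal (b ^ ((d : ℝ) - κ)) * ‖Pool.Agent.H84.BR.CD.besS (-κ) H x‖ₑ

/-- ONF: one frequency -/
def T_ONF : Prop := ∀ (d : ℕ) (p s κ : ℝ) (a : EE d → ℂ), 3 ≤ d → 2 < p → 0 < κ → Sym a →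
  ∃ C : ℝ≥0, ∀ (lam ε : ℝ) (u g : 𝓢(EE d, ℂ)), 1 ≤ lam → (ε = 1 ∨ ε = -1) →
  NN (g : EE d → ℂ) → NN (fun x => Pool.Agent.H84.BR.CD.besS s u x + g x) →
  ∫⁻ t in Icc (1 : ℝ) 2, ∫⁻ x : EE d, ‖HP a ε lam t u x‖ₑ ^ p ≤
    C * ENNReal.ofReal (xp d p s κ lam) *
      ((∫⁻ x, ‖Pool.Agent.H84.BR.CD.besS (s - κ) u x‖ₑ ^ p) +
        ∫⁻ x, ‖Pool.Agent.H84.BR.CD.besS (-κ) g x‖ₑ ^ p)

/-- PFIN: the theorem -/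
def T_PFIN : Prop := ∀ (d : ℕ) (p σ s : ℝ), 3 ≤ d → 2 < p →
  σ * p < ((d : ℝ) - 2) * min 1 (p - 2) → ((d : ℝ) - 1) * (1 / 2 - 1 / p) < s + σ →
  σ * (p - 1) < (s + σ - ((d : ℝ) - 1) * (1 / 2 - 1 / p)) * min 1 (p - 2) →
  ∃ C : ℝ≥0, ∀ u₀ u₁ g : 𝓢(EE d, ℂ), NN (g : EE d → ℂ) →
    NN (fun x => Pool.Agent.H84.BR.CD.besS s u₀ x + g x) →
    NN (fun x => Pool.Agent.H84.BR.CD.besS (s - 1) u₁ x + g x) →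
    Pool.Agent.H84.BR.CD.solNorm p u₀ u₁ ≤
      C * (Pool.Agent.H84.BR.CD.datN p σ u₀ u₁ +
        Pool.Agent.H84.BR.CD.sobNorm p (((d : ℝ) - 1) * (1 / 2 - 1 / p) - σ - s) g)

end Pool.Agent.H82.PD
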