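import Pool.Agent.H82.PD.Targets
import Pool.Agent.H19.KL.BUMP
import Pool.Agent.H27.KL.BES

/-!
One frequency: the modules put together.
-/

set_option autoImplicit false

namespace Pool.Agent.H82.PD

open MeasureTheory Set FourierTransform Pool.Agent.H82.KL Pool.Agent.H94.C1
open scoped ENNReal NNReal SchwartzMap

lemma k2B_mono {d : ℕ} {F G : EE d → ℝ≥0∞} (h : ∀ x, F x ≤ G x) (x : EE d) : k2B F x ≤ k2B G x := by
  unfold k2B
  exact lintegral_mono fun y => mul_le_mul' (h y) le_rfl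

lemma k2B_mul {d : ℕ} (F : EE d → ℝ≥0∞) (c : ℝ≥0∞) (hc : c ≠ ⊤) (x : EE d) :
    k2B (fun y => c * F y) x = c * k2B F x := by
  unfold k2B
  rw [← lintegral_const_mul' _ _ hc]
  refine lintegral_congr fun y => ?_
  rw [mul_assoc]

lemma KB_mono {d : ℕ} {p : ℝ} (hp : 2 < p) {F G : EE d → ℝ≥0∞} (h : ∀ x, F x ≤ G x) :
    KB p F ≤ KB p G := by
  have hp2 : 0 ≤ p - 2 := by linarith
  unfold KB
  split_ifs
  · refine lintegral_mono fun x => mul_le_mul' (pow_le_pow_left₀ zero_le (h x) 2) ?_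
    exact ENNReal.rpow_le_rpow (k2B_mono h x) hp2
  · refine lintegral_mono fun x => mul_le_mul' (pow_le_pow_left₀ zero_le (h x) 2) ?_
    exact k2B_mono (fun y => ENNReal.rpow_le_rpow (h y) hp2) x

lemma sq_mul_rpow {p : ℝ} (hp : 2 < p) (c : ℝ≥0∞) : c ^ 2 * c ^ (p - 2) = c ^ p := by
  rw [← ENNReal.rpow_natCast, ← ENNReal.rpow_add_of_nonneg _ _ (by positivity) (by linarith)]
  congr 1
  push_cast
  ring

lemma KB_mul {d : ℕ} {p : ℝ} (hp : 2 < p) (F : EE d → ℝ≥0∞) (c : ℝ≥0∞) (hc : c ≠ ⊤) :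
    KB p (fun x => c * F x) = c ^ p * KB p F := by
  have hp2 : 0 ≤ p - 2 := by linarith
  have hcp : c ^ p ≠ ⊤ := ENNReal.rpow_ne_top_of_nonneg (by linarith) hc
  have hcp2 : c ^ (p - 2) ≠ ⊤ := ENNReal.rpow_ne_top_of_nonneg hp2 hc
  unfold KB
  split_ifs
  · rw [← lintegral_const_mul' _ _ hcp]
    refine lintegral_congr fun x => ?_
    rw [k2B_mul F c hc, mul_pow, ENNReal.mul_rpow_of_nonneg _ _ hp2, ← sq_mul_rpow hp c]
    ring
  · rw [← lintegral_const_mul' _ _ hcp]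
    refine lintegral_congr fun x => ?_
    have : (fun y => (c * F y) ^ (p - 2)) = fun y => c ^ (p - 2) * F y ^ (p - 2) := by
      ext y
      rw [ENNReal.mul_rpow_of_nonneg _ _ hp2]
    rw [this, k2B_mul _ _ hcp2, mul_pow, ← sq_mul_rpow hp c]
    ring

lemma cp_mono {d : ℕ} (lam : ℝ) {F G : EE d → ℝ≥0∞} (h : ∀ x, F x ≤ G x) (x : EE d) :
    cp lam F x ≤ cp lam G x := by
  unfold cp
  exact lintegral_mono fun y => mul_le_mul' le_rfl (h y)

/-- the real variable inequality for all `p` -/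
lemma rv_all (h2 : T_RVA) (h3 : T_RVB) (d : ℕ) (p κ : ℝ) (C₀ : ℝ≥0) (hd : 3 ≤ d) (hp : 2 < p)
    (hκ : 0 < κ) : ∃ C : ℝ≥0, ∀ (lam : ℝ) (F V : EE d → ℝ≥0∞), 1 ≤ lam → Measurable F →
    Measurable V → (∀ x y, ‖x - y‖ ≤ 1 / lam → F y ≤ C₀ * F x) →
    (∀ x, F x ≤ ENNReal.ofReal (lam ^ κ) * V x) →
    (∀ b x, 1 / lam ≤ b → b ≤ 16 → ba b F x ≤ ENNReal.ofReal (b ^ ((d : ℝ) - κ)) * V x) →
    KB p F ≤ C * ENNReal.ofReal ((1 + Real.log lam) *
      (lam ^ (κ * p * max 1 (p - 2) / (p - 1)) + lam ^ (κ * p - ((d : ℝ) - 2) * min 1 (p - 2)))) *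
      ∫⁻ x, V x ^ p := by
  rcases le_or_gt p 3 with h | h
  · obtain ⟨C, hC⟩ := h2 d p κ C₀ hd hp h hκ
    refine ⟨C, fun lam F V hl hF hV a b c => ?_⟩
    rw [max_eq_left (by linarith), min_eq_right (by linarith), mul_one]
    exact hC lam F V hl hF hV a b c
  · obtain ⟨C, hC⟩ := h3 d p κ C₀ hd h hκ
    refine ⟨C, fun lam F V hl hF hV a b c => ?_⟩
    rw [max_eq_right (by linarith), min_eq_left (by linarith), mul_one]
    exact hC lam F V hl hF hV a b c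

theorem pf_ONF (h1 : T_RSC) (h2 : T_RVA) (h3 : T_RVB) (h4 : T_PSI) (h5 : T_MAJ) (h6 : T_BSC)
    (h7 : T_BKL) : T_ONF := by
  intro d p s κ a hd hp hκ ha
  have hd1 : 1 ≤ d := by omega
  have hp0 : 0 < p := by linarith
  have hp1 : 1 ≤ p := by linarith
  obtain ⟨b, hb, hab⟩ := Pool.Agent.H19.KL.bump_main d a ha
  obtain ⟨_, hbes⟩ := bes_main d p 0 b hp1 hb
  obtain ⟨CM, hCM⟩ := h5 d s b hd1 hb
  obtain ⟨CP, hCP⟩ := h4 d κ p hd1 hκ hp1
  obtain ⟨CB, hCB⟩ := h7 d κ hd1 hκ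
  obtain ⟨CV, hCV⟩ := rv_all h2 h3 d p κ CP hd hp hκ
  set M : ℕ := ⌈κ * p⌉₊ with hM
  obtain ⟨CR, hCR⟩ := h1 d M p a hd hp ha
  -- the constant of `V`
  set D : ℝ≥0 := CP * CB + CB with hD
  set K : ℝ≥0 := CR * CM ^ p * CV * D ^ p * CP * 4 ^ p + CR * CM ^ p * D ^ p * CP * 4 ^ p with hK
  refine ⟨K, ?_⟩
  intro lam ε u g hlam hε hg hug
  have hlam0 : 0 < lam := by linarith
  obtain ⟨f, hf, -⟩ := hbes lam u hlam
  obtain ⟨H, hH, hHb⟩ := h6 d s κ u g
  have hNN : NN (H : EE d → ℂ) := by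
    intro x
    rw [hH x]
    obtain ⟨a1, a2⟩ := hg x
    obtain ⟨b1, b2⟩ := hug x
    simp only [Complex.add_im, Complex.add_re, Complex.mul_im, Complex.mul_re] at b1 b2 ⊢
    constructor
    · simp
      linarith
    · simp
      linarith
  have hle : ∀ x, ‖Pool.Agent.H84.BR.CD.besS s u x‖ₑ ≤ ‖H x‖ₑ := by
    intro x
    obtain ⟨a1, a2⟩ := hg x
    obtain ⟨b1, b2⟩ := hug x
    obtain ⟨c1, c2⟩ := hNN x
    simp only [Complex.add_im, Complex.add_re] at b1 b2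
    have e1 : Pool.Agent.H84.BR.CD.besS s u x =
        (((Pool.Agent.H84.BR.CD.besS s u x).re : ℝ) : ℂ) := by
      apply Complex.ext
      · simp
      · simp
        linarith
    have e2 : H x = (((H x).re : ℝ) : ℂ) := by
      apply Complex.ext
      · simp
      · simp [c1]
    have e3 : (H x).re = (Pool.Agent.H84.BR.CD.besS s u x).re + 2 * (g x).re := by
      rw [hH x]
      simp
    rw [enorm_le_iff_norm_le, e1, e2, Complex.norm_real, Complex.norm_real, Real.norm_eq_abs,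
      Real.norm_eq_abs, abs_of_nonneg c2, e3, abs_le]
    constructor <;> linarith
  -- measurability
  have mH : Measurable (fun y => ‖H y‖ₑ) := H.continuous.measurable.enorm
  have mf : Measurable (fun y => ‖f y‖ₑ) := f.continuous.measurable.enorm
  obtain ⟨H', hH', -⟩ := h6 d (-κ) κ H 0
  set w : EE d → ℝ≥0∞ := fun x => ‖Pool.Agent.H84.BR.CD.besS (-κ) H x‖ₑ with hw
  have mw : Measurable w := by
    have : w = fun x => ‖H' x‖ₑ := by
      ext x
      rw [hw, hH' x]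
      simp
    rw [this]
    exact H'.continuous.measurable.enorm
  set F : EE d → ℝ≥0∞ := cp lam (fun y => ‖H y‖ₑ) with hF
  obtain ⟨p1, p2⟩ := hCP lam hlam
  obtain ⟨mF, locF, -⟩ := p1 _ mH
  obtain ⟨mV, -, youV⟩ := p1 _ mw
  obtain ⟨q1, q2⟩ := p2 CB _ w mH mw (fun b x hb hb16 => hCB H hNN b x hb hb16)
  set V : EE d → ℝ≥0∞ := fun x => (D : ℝ≥0∞) * cp lam w x with hV
  have mV' : Measurable V := mV.const_mul _
  have hD' : (D : ℝ≥0∞) = CP * CB + CB := by rw [hD]; push_cast; rfl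
  have r1 : ∀ x, F x ≤ ENNReal.ofReal (lam ^ κ) * V x := by
    intro x
    refine (q1 x).trans ?_
    rw [hV, hD']
    calc (CP : ℝ≥0∞) * CB * ENNReal.ofReal (lam ^ κ) * cp lam w x
        = ENNReal.ofReal (lam ^ κ) * ((CP * CB) * cp lam w x) := by ring
      _ ≤ ENNReal.ofReal (lam ^ κ) * ((CP * CB + CB) * cp lam w x) := by
          gcongr
          exact le_self_add
  have r2 : ∀ b x, 1 / lam ≤ b → b ≤ 16 → ba b F x ≤ ENNReal.ofReal (b ^ ((d : ℝ) - κ)) * V x := by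
    intro b x hb hb16
    have hb0 : 0 < b := lt_of_lt_of_le (by positivity) hb
    refine (q2 b x hb0 hb16).trans ?_
    rw [hV, hD']
    calc (CB : ℝ≥0∞) * ENNReal.ofReal (b ^ ((d : ℝ) - κ)) * cp lam w x
        = ENNReal.ofReal (b ^ ((d : ℝ) - κ)) * (CB * cp lam w x) := by ring
      _ ≤ ENNReal.ofReal (b ^ ((d : ℝ) - κ)) * ((CP * CB + CB) * cp lam w x) := by
          gcongr
          exact le_add_self
  have hKB := hCV lam F V hlam mF mV' locF r1 r2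
  -- the function `w`
  set X : ℝ≥0∞ := ∫⁻ x, ‖Pool.Agent.H84.BR.CD.besS (s - κ) u x‖ₑ ^ p with hX
  set Y : ℝ≥0∞ := ∫⁻ x, ‖Pool.Agent.H84.BR.CD.besS (-κ) g x‖ₑ ^ p with hY
  obtain ⟨U', hU', -⟩ := h6 d (s - κ) κ u 0
  have mU : Measurable (fun x => ‖Pool.Agent.H84.BR.CD.besS (s - κ) u x‖ₑ) := by
    have : (fun x => ‖Pool.Agent.H84.BR.CD.besS (s - κ) u x‖ₑ) = fun x => ‖U' x‖ₑ := by
      ext x
      rw [hU' x]
      simp
    rw [this]
    exact U'.continuous.measurable.enorm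
  have hwp : ∫⁻ x, w x ^ p ≤ 4 ^ p * (X + Y) := by
    have h1 : ∀ x, w x ^ p ≤ 4 ^ p * ‖Pool.Agent.H84.BR.CD.besS (s - κ) u x‖ₑ ^ p +
        4 ^ p * ‖Pool.Agent.H84.BR.CD.besS (-κ) g x‖ₑ ^ p := by
      intro x
      have h2 : w x ≤ ‖Pool.Agent.H84.BR.CD.besS (s - κ) u x‖ₑ +
          2 * ‖Pool.Agent.H84.BR.CD.besS (-κ) g x‖ₑ := by
        rw [hw]
        dsimp only
        rw [hHb x]
        refine (enorm_add_le _ _).trans ?_
        rw [enorm_mul]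
        gcongr
        rw [← ofReal_norm]
        norm_num
      rcases le_total ‖Pool.Agent.H84.BR.CD.besS (s - κ) u x‖ₑ
        ‖Pool.Agent.H84.BR.CD.besS (-κ) g x‖ₑ with h3 | h3
      · have h4 : w x ≤ 4 * ‖Pool.Agent.H84.BR.CD.besS (-κ) g x‖ₑ := by
          refine h2.trans ?_
          calc _ ≤ ‖Pool.Agent.H84.BR.CD.besS (-κ) g x‖ₑ +
              2 * ‖Pool.Agent.H84.BR.CD.besS (-κ) g x‖ₑ := by gcongr
            _ = 3 * ‖Pool.Agent.H84.BR.CD.besS (-κ) g x‖ₑ := by ring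
            _ ≤ _ := by gcongr; norm_num
        calc w x ^ p ≤ (4 * ‖Pool.Agent.H84.BR.CD.besS (-κ) g x‖ₑ) ^ p :=
              ENNReal.rpow_le_rpow h4 hp0.le
          _ = 4 ^ p * ‖Pool.Agent.H84.BR.CD.besS (-κ) g x‖ₑ ^ p :=
              ENNReal.mul_rpow_of_nonneg _ _ hp0.le
          _ ≤ _ := le_add_self
      · have h4 : w x ≤ 4 * ‖Pool.Agent.H84.BR.CD.besS (s - κ) u x‖ₑ := by
          refine h2.trans ?_
          calc _ ≤ ‖Pool.Agent.H84.BR.CD.besS (s - κ) u x‖ₑ +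
              2 * ‖Pool.Agent.H84.BR.CD.besS (s - κ) u x‖ₑ := by gcongr
            _ = 3 * ‖Pool.Agent.H84.BR.CD.besS (s - κ) u x‖ₑ := by ring
            _ ≤ _ := by gcongr; norm_num
        calc w x ^ p ≤ (4 * ‖Pool.Agent.H84.BR.CD.besS (s - κ) u x‖ₑ) ^ p :=
              ENNReal.rpow_le_rpow h4 hp0.le
          _ = 4 ^ p * ‖Pool.Agent.H84.BR.CD.besS (s - κ) u x‖ₑ ^ p :=
              ENNReal.mul_rpow_of_nonneg _ _ hp0.le
          _ ≤ _ := le_self_add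
    refine (lintegral_mono h1).trans ?_
    rw [lintegral_add_left ((mU.pow_const p).const_mul _), lintegral_const_mul' _ _ (by simp),
      lintegral_const_mul' _ _ (by simp), mul_add]
  have hVp : ∫⁻ x, V x ^ p ≤ (D : ℝ≥0∞) ^ p * CP * 4 ^ p * (X + Y) := by
    have h1 : ∫⁻ x, V x ^ p = (D : ℝ≥0∞) ^ p * ∫⁻ x, cp lam w x ^ p := by
      rw [← lintegral_const_mul' _ _ (ENNReal.rpow_ne_top_of_nonneg hp0.le ENNReal.coe_ne_top)]
      refine lintegral_congr fun x => ?_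
      rw [hV]
      exact ENNReal.mul_rpow_of_nonneg _ _ hp0.le
    rw [h1]
    calc (D : ℝ≥0∞) ^ p * ∫⁻ x, cp lam w x ^ p ≤ (D : ℝ≥0∞) ^ p * (CP * (4 ^ p * (X + Y))) := by
          gcongr
          exact youV.trans (by gcongr)
      _ = _ := by ring
  -- the localized function
  obtain ⟨c, hc⟩ : ∃ c : ℝ≥0∞, c = CM * ENNReal.ofReal (lam ^ (-s)) := ⟨_, rfl⟩
  have hctop : c ≠ ⊤ := by
    rw [hc]
    exact ENNReal.mul_ne_top ENNReal.coe_ne_top ENNReal.ofReal_ne_top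
  have hcp : c ^ p = (CM : ℝ≥0∞) ^ p * ENNReal.ofReal (lam ^ (-(s * p))) := by
    rw [hc, ENNReal.mul_rpow_of_nonneg _ _ hp0.le,
      ENNReal.ofReal_rpow_of_nonneg (by positivity) hp0.le, ← Real.rpow_mul hlam0.le, neg_mul]
  have hfF : ∀ x, ‖f x‖ₑ ≤ c * F x := by
    intro x
    refine (hCM lam u f hlam hf x).trans ?_
    rw [hc]
    gcongr
    exact cp_mono lam hle x
  have hKBf : KB p (fun y => ‖f y‖ₑ) ≤ c ^ p * KB p F :=
    (KB_mono hp hfF).trans (KB_mul hp F c hctop).le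
  have hfp : ∫⁻ x, ‖f x‖ₑ ^ p ≤ c ^ p * (ENNReal.ofReal (lam ^ (κ * p)) * ∫⁻ x, V x ^ p) := by
    have h1 : ∀ x, ‖f x‖ₑ ^ p ≤ c ^ p * (ENNReal.ofReal (lam ^ (κ * p)) * V x ^ p) := by
      intro x
      calc ‖f x‖ₑ ^ p ≤ (c * (ENNReal.ofReal (lam ^ κ) * V x)) ^ p :=
            ENNReal.rpow_le_rpow ((hfF x).trans (by gcongr; exact r1 x)) hp0.le
        _ = _ := by
            rw [ENNReal.mul_rpow_of_nonneg _ _ hp0.le, ENNReal.mul_rpow_of_nonneg _ _ hp0.le,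
              ENNReal.ofReal_rpow_of_nonneg (by positivity) hp0.le, ← Real.rpow_mul hlam0.le]
    refine (lintegral_mono h1).trans ?_
    rw [lintegral_const_mul' _ _ (ENNReal.rpow_ne_top_of_nonneg hp0.le hctop),
      lintegral_const_mul' _ _ ENNReal.ofReal_ne_top]
  have hHP : ∀ (t : ℝ) (x : EE d), HP a ε lam t u x = HP a ε lam t f x := by
    intro t x
    unfold HP H83.LS.MM
    refine integral_congr_ae (Filter.Eventually.of_forall fun ξ => ?_)
    dsimp only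
    rw [hf ξ]
    by_cases h : lam⁻¹ • ξ ∈ tsupport a
    · rw [hab _ h, one_mul]
    · rw [image_eq_zero_of_notMem_tsupport h]
      ring
  have hmain := hCR lam ε f hlam hε
  simp_rw [← hHP] at hmain
  refine hmain.trans ?_
  -- numbers
  have hlog : 0 ≤ Real.log lam := Real.log_nonneg hlam
  set E : ℝ := (1 + Real.log lam) * (lam ^ (κ * p * max 1 (p - 2) / (p - 1)) +
    lam ^ (κ * p - ((d : ℝ) - 2) * min 1 (p - 2))) with hE
  have hE0 : 0 ≤ E := by rw [hE]; positivity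
  have hxp : xp d p s κ lam = lam ^ (((d : ℝ) - 1) * (p - 2) / 2) * (lam ^ (-(s * p)) * E) := by
    unfold xp
    rw [sub_eq_add_neg (((d : ℝ) - 1) * (p - 2) / 2), Real.rpow_add hlam0, hE]
    ring
  have hE1 : 1 ≤ E := by
    rw [hE]
    have e1 : 1 ≤ lam ^ (κ * p * max 1 (p - 2) / (p - 1)) := by
      apply Real.one_le_rpow hlam
      have : 0 < p - 1 := by linarith
      have : 0 < max 1 (p - 2) := lt_max_of_lt_left one_pos
      positivity
    have e2 : 0 ≤ lam ^ (κ * p - ((d : ℝ) - 2) * min 1 (p - 2)) := by positivity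
    nlinarith
  have hA1 : 1 ≤ lam ^ (((d : ℝ) - 1) * (p - 2) / 2) := by
    apply Real.one_le_rpow hlam
    have : (1 : ℝ) ≤ d := by exact_mod_cast hd1
    have h1 : 0 ≤ (d : ℝ) - 1 := by linarith
    have h2 : 0 ≤ p - 2 := by linarith
    positivity
  have htail : (lam ^ M)⁻¹ * (lam ^ (-(s * p)) * lam ^ (κ * p)) ≤ xp d p s κ lam := by
    have e1 : lam ^ (κ * p) ≤ lam ^ M := by
      rw [← Real.rpow_natCast]
      exact Real.rpow_le_rpow_of_exponent_le hlam (Nat.le_ceil _)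
    have e2 : 0 < lam ^ (-(s * p)) := by positivity
    have e3 : 0 < lam ^ M := by positivity
    calc (lam ^ M)⁻¹ * (lam ^ (-(s * p)) * lam ^ (κ * p))
        ≤ (lam ^ M)⁻¹ * (lam ^ (-(s * p)) * lam ^ M) := by gcongr
      _ = lam ^ (-(s * p)) := by field_simp
      _ ≤ lam ^ (((d : ℝ) - 1) * (p - 2) / 2) * (lam ^ (-(s * p)) * E) := by
          calc lam ^ (-(s * p)) = 1 * (lam ^ (-(s * p)) * 1) := by ring
            _ ≤ _ := by gcongr
      _ = _ := hxp.symm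
  have hxp0 : 0 ≤ xp d p s κ lam := le_trans (by positivity) htail
  -- first term
  have t1 : (CR : ℝ≥0∞) * ENNReal.ofReal (lam ^ (((d : ℝ) - 1) * (p - 2) / 2)) *
      KB p (fun y => ‖f y‖ₑ) ≤ (CR * CM ^ p * CV * D ^ p * CP * 4 ^ p : ℝ≥0∞) *
      ENNReal.ofReal (xp d p s κ lam) * (X + Y) := by
    calc (CR : ℝ≥0∞) * ENNReal.ofReal (lam ^ (((d : ℝ) - 1) * (p - 2) / 2)) *
        KB p (fun y => ‖f y‖ₑ)
        ≤ (CR : ℝ≥0∞) * ENNReal.ofReal (lam ^ (((d : ℝ) - 1) * (p - 2) / 2)) *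
          ((CM : ℝ≥0∞) ^ p * ENNReal.ofReal (lam ^ (-(s * p))) *
            (CV * ENNReal.ofReal E * ((D : ℝ≥0∞) ^ p * CP * 4 ^ p * (X + Y)))) := by
          gcongr
          refine hKBf.trans ?_
          rw [hcp]
          gcongr
          refine hKB.trans ?_
          gcongr
      _ = (CR * CM ^ p * CV * D ^ p * CP * 4 ^ p : ℝ≥0∞) *
          (ENNReal.ofReal (lam ^ (((d : ℝ) - 1) * (p - 2) / 2)) *
            (ENNReal.ofReal (lam ^ (-(s * p))) * ENNReal.ofReal E)) * (X + Y) := by ring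
      _ = _ := by
          rw [← ENNReal.ofReal_mul (by positivity), ← ENNReal.ofReal_mul (by positivity), ← hxp]
  have t2 : (CR : ℝ≥0∞) * ENNReal.ofReal ((lam ^ M)⁻¹) * ∫⁻ x, ‖f x‖ₑ ^ p ≤
      (CR * CM ^ p * D ^ p * CP * 4 ^ p : ℝ≥0∞) *
      ENNReal.ofReal (xp d p s κ lam) * (X + Y) := by
    calc (CR : ℝ≥0∞) * ENNReal.ofReal ((lam ^ M)⁻¹) * ∫⁻ x, ‖f x‖ₑ ^ p
        ≤ (CR : ℝ≥0∞) * ENNReal.ofReal ((lam ^ M)⁻¹) *
          ((CM : ℝ≥0∞) ^ p * ENNReal.ofReal (lam ^ (-(s * p))) *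
            (ENNReal.ofReal (lam ^ (κ * p)) * ((D : ℝ≥0∞) ^ p * CP * 4 ^ p * (X + Y)))) := by
          gcongr
          refine hfp.trans ?_
          rw [hcp]
          gcongr
      _ = (CR * CM ^ p * D ^ p * CP * 4 ^ p : ℝ≥0∞) *
          (ENNReal.ofReal ((lam ^ M)⁻¹) *
            (ENNReal.ofReal (lam ^ (-(s * p))) * ENNReal.ofReal (lam ^ (κ * p)))) * (X + Y) := by
          ring
      _ ≤ _ := by
          rw [← ENNReal.ofReal_mul (by positivity), ← ENNReal.ofReal_mul (by positivity)]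
          gcongr
  refine (add_le_add t1 t2).trans ?_
  rw [← add_mul, ← add_mul]
  have hKe : (K : ℝ≥0∞) = CR * CM ^ p * CV * D ^ p * CP * 4 ^ p +
      CR * CM ^ p * D ^ p * CP * 4 ^ p := by
    rw [hK]
    push_cast [ENNReal.coe_rpow_of_nonneg _ hp0.le]
    rfl
  rw [hKe]

end Pool.Agent.H82.PD
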