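import Pool.Agent.H82.PD.Targets
import Pool.Agent.H94.C1.FIN2
import Pool.Agent.H73.LS.FING
import Pool.Agent.H19.LS.YG
import Pool.Agent.H19.LS.PLE
import Pool.Agent.H58.LS.KBV
import Pool.Agent.H94.LS.LOWF

/-!
Local smoothing for data with a positivity property, all dimensions: the sum over the frequencies.
-/

set_option autoImplicit false

namespace Pool.Agent.H82.PD

open MeasureTheory Set Filter FourierTransform Pool.Agent.H82.KL Pool.Agent.H94.C1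
open scoped ENNReal NNReal SchwartzMap Topology
open Pool.Agent.H83.LS (MK MM eta0 chi)

lemma half_a {d : ℕ} {c : ℝ → EE d → ℝ} {b : EE d → ℂ} (hb : Sym b) (p : ℝ)
    (hp : 1 ≤ p) (lam K : ℝ) (hK : 0 ≤ K) (κ₁ κ₂ : ℂ) (h1 : ‖κ₁‖ ≤ K) (h2 : ‖κ₂‖ ≤ K)
    (h3 : ∀ t ξ, ((c t ξ : ℝ) : ℂ) = κ₁ * (e (1 * t * ‖ξ‖) * b (lam⁻¹ • ξ)) +
      κ₂ * (e (-1 * t * ‖ξ‖) * b (lam⁻¹ • ξ))) (u : 𝓢(EE d, ℂ)) (t : ℝ) (x : EE d) :
    ‖MM (fun ξ => ((c t ξ : ℝ) : ℂ)) u x‖ₑ ^ p ≤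
      ENNReal.ofReal (2 ^ (p - 1) * K ^ p) *
        (‖HP b 1 lam t u x‖ₑ ^ p + ‖HP b (-1) lam t u x‖ₑ ^ p) := by
  have hp0 : 0 < p := lt_of_lt_of_le one_pos hp
  have h4 : MM (fun ξ => ((c t ξ : ℝ) : ℂ)) u x =
      κ₁ * HP b 1 lam t u x + κ₂ * HP b (-1) lam t u x := by
    unfold HP H83.LS.MM
    rw [← integral_const_mul, ← integral_const_mul,
      ← integral_add ((integrable_HP hb 1 lam t u x).const_mul κ₁)
        ((integrable_HP hb (-1) lam t u x).const_mul κ₂)]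
    refine integral_congr_ae (Eventually.of_forall fun ξ => ?_)
    beta_reduce
    rw [h3 t ξ]
    ring
  have h5 : ‖MM (fun ξ => ((c t ξ : ℝ) : ℂ)) u x‖ₑ ≤
      ENNReal.ofReal K * (‖HP b 1 lam t u x‖ₑ + ‖HP b (-1) lam t u x‖ₑ) := by
    rw [h4, mul_add]
    refine (enorm_add_le _ _).trans (add_le_add ?_ ?_)
    · rw [enorm_mul]
      refine mul_le_mul' ?_ le_rfl
      rw [← ofReal_norm]
      exact ENNReal.ofReal_le_ofReal h1
    · rw [enorm_mul]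
      refine mul_le_mul' ?_ le_rfl
      rw [← ofReal_norm]
      exact ENNReal.ofReal_le_ofReal h2
  refine (ENNReal.rpow_le_rpow h5 hp0.le).trans ?_
  rw [ENNReal.mul_rpow_of_nonneg _ _ hp0.le, ENNReal.ofReal_rpow_of_nonneg hK hp0.le,
    ENNReal.ofReal_mul (by positivity), mul_comm (ENNReal.ofReal (2 ^ (p - 1))), mul_assoc]
  refine mul_le_mul' le_rfl ?_
  have h6 := ENNReal.rpow_add_le_mul_rpow_add_rpow ‖HP b 1 lam t u x‖ₑ ‖HP b (-1) lam t u x‖ₑ hp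
  rw [← ENNReal.ofReal_rpow_of_nonneg (by norm_num) (by linarith)]
  rw [show ENNReal.ofReal (2 : ℝ) = 2 by simp]
  exact h6

lemma m1' {d : ℕ} {b : EE d → ℂ} (hb : Sym b) (p : ℝ) (lam ε : ℝ)
    (u : 𝓢(EE d, ℂ)) : Measurable (fun q : ℝ × EE d => ‖HP b ε lam q.1 u q.2‖ₑ ^ p) :=
    ((measurable_HP hb ε lam u).enorm).pow_const p

lemma m2' {d : ℕ} {b : EE d → ℂ} (hb : Sym b) (p : ℝ) (lam ε t : ℝ)
    (u : 𝓢(EE d, ℂ)) : Measurable (fun x : EE d => ‖HP b ε lam t u x‖ₑ ^ p) := by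
  have h : Measurable ((fun q : ℝ × EE d => ‖HP b ε lam q.1 u q.2‖ₑ ^ p) ∘
      (fun x : EE d => (t, x))) := (m1' hb p lam ε u).comp (by fun_prop)
  exact h

lemma m3' {d : ℕ} {b : EE d → ℂ} (hb : Sym b) (p : ℝ) (lam ε : ℝ)
    (u : 𝓢(EE d, ℂ)) : Measurable (fun t : ℝ => ∫⁻ x : EE d, ‖HP b ε lam t u x‖ₑ ^ p) := 
    (m1' hb p lam ε u).lintegral_prod_right'

lemma half_b {d : ℕ} {b : EE d → ℂ} (hb : Sym b) (p : ℝ) (lam : ℝ) (A : ℝ≥0∞) (hA : A ≠ ⊤)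
    (u : 𝓢(EE d, ℂ)) (X : ℝ≥0∞)
    (hX : ∀ ε : ℝ, (ε = 1 ∨ ε = -1) →
      ∫⁻ t in Icc (1 : ℝ) 2, ∫⁻ x : EE d, ‖HP b ε lam t u x‖ₑ ^ p ≤ X) :
    ∫⁻ t in Icc (1 : ℝ) 2, ∫⁻ x : EE d, A *
        (‖HP b 1 lam t u x‖ₑ ^ p + ‖HP b (-1) lam t u x‖ₑ ^ p) ≤ A * (X + X) := by
  have e1 : ∫⁻ t in Icc (1 : ℝ) 2, ∫⁻ x : EE d, A *
        (‖HP b 1 lam t u x‖ₑ ^ p + ‖HP b (-1) lam t u x‖ₑ ^ p) =
      A * ((∫⁻ t in Icc (1 : ℝ) 2, ∫⁻ x : EE d, ‖HP b 1 lam t u x‖ₑ ^ p) +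
        ∫⁻ t in Icc (1 : ℝ) 2, ∫⁻ x : EE d, ‖HP b (-1) lam t u x‖ₑ ^ p) := by
    rw [← lintegral_add_left (m3' hb p lam 1 u), ← lintegral_const_mul' _ _ hA]
    refine lintegral_congr fun t => ?_
    rw [lintegral_const_mul' _ _ hA, lintegral_add_left (m2' hb p lam 1 t u)]
  rw [e1]
  gcongr
  · exact hX 1 (Or.inl rfl)
  · exact hX (-1) (Or.inr rfl)

/-- one frequency: from the half wave operators to a real multiplier -/
lemma half_piece' {d : ℕ} {c : ℝ → EE d → ℝ} {b : EE d → ℂ} (hb : Sym b) (p : ℝ)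
    (hp : 1 ≤ p) (lam K : ℝ) (hK : 0 ≤ K) (κ₁ κ₂ : ℂ) (h1 : ‖κ₁‖ ≤ K) (h2 : ‖κ₂‖ ≤ K)
    (h3 : ∀ t ξ, ((c t ξ : ℝ) : ℂ) = κ₁ * (e (1 * t * ‖ξ‖) * b (lam⁻¹ • ξ)) +
      κ₂ * (e (-1 * t * ‖ξ‖) * b (lam⁻¹ • ξ))) (u : 𝓢(EE d, ℂ)) (X : ℝ≥0∞)
    (hX : ∀ ε : ℝ, (ε = 1 ∨ ε = -1) →
      ∫⁻ t in Icc (1 : ℝ) 2, ∫⁻ x : EE d, ‖HP b ε lam t u x‖ₑ ^ p ≤ X) :
    ∫⁻ t in Icc (1 : ℝ) 2, ∫⁻ x : EE d, ‖MM (fun ξ => ((c t ξ : ℝ) : ℂ)) u x‖ₑ ^ p ≤
      ENNReal.ofReal ((2 * K) ^ p) * X := by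
  calc ∫⁻ t in Icc (1 : ℝ) 2, ∫⁻ x : EE d, ‖MM (fun ξ => ((c t ξ : ℝ) : ℂ)) u x‖ₑ ^ p
      ≤ ∫⁻ t in Icc (1 : ℝ) 2, ∫⁻ x : EE d, ENNReal.ofReal (2 ^ (p - 1) * K ^ p) *
        (‖HP b 1 lam t u x‖ₑ ^ p + ‖HP b (-1) lam t u x‖ₑ ^ p) :=
        lintegral_mono fun t => lintegral_mono fun x =>
          half_a hb p hp lam K hK κ₁ κ₂ h1 h2 h3 u t x
    _ ≤ ENNReal.ofReal (2 ^ (p - 1) * K ^ p) * (X + X) :=
        half_b hb p lam _ ENNReal.ofReal_ne_top u X hX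
    _ = ENNReal.ofReal ((2 * K) ^ p) * X := by
        rw [← two_mul, ← mul_assoc]
        congr 1
        rw [show (2 : ℝ≥0∞) = ENNReal.ofReal 2 by simp, ← ENNReal.ofReal_mul (by positivity)]
        congr 1
        rw [Real.mul_rpow (by norm_num) hK, mul_right_comm, ← Real.rpow_add_one (by norm_num)]
        congr 2
        ring

/-- the symbol for the velocity -/
noncomputable def bv {d : ℕ} (ξ : EE d) : ℂ := ((‖ξ‖⁻¹ * chi ‖ξ‖ : ℝ) : ℂ)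

lemma sym_bv {d : ℕ} : Sym (bv (d := d)) :=
  sym_of (fun ξ => ‖ξ‖⁻¹) fun _ hξ => (contDiffAt_norm ℝ hξ).inv (norm_ne_zero_iff.mpr hξ)

/-- the exponents -/
lemma xp_bound (d : ℕ) (p σ s : ℝ) (hp : 2 < p)
    (h1 : σ * p < ((d : ℝ) - 2) * min 1 (p - 2))
    (h2 : σ * (p - 1) < (s + σ - ((d : ℝ) - 1) * (1 / 2 - 1 / p)) * min 1 (p - 2)) :
    ∃ δ : ℝ, 0 < δ ∧ ∃ C : ℝ, 0 ≤ C ∧ ∀ lam : ℝ, 1 ≤ lam →
      xp d p s (s + σ - ((d : ℝ) - 1) * (1 / 2 - 1 / p)) lam ≤ C * lam ^ (-δ) := by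
  have hp0 : 0 < p := by linarith
  have hp1 : 0 < p - 1 := by linarith
  set κ := s + σ - ((d : ℝ) - 1) * (1 / 2 - 1 / p) with hκ
  set m := min 1 (p - 2) with hm
  have hmM : max 1 (p - 2) = p - 1 - m := by
    rw [hm]
    rcases le_total 1 (p - 2) with h | h
    · rw [max_eq_right h, min_eq_left h]; ring
    · rw [max_eq_left h, min_eq_right h]; ring
  set E1 := p * σ - p * κ * m / (p - 1) with hE1
  set E2 := p * σ - ((d : ℝ) - 2) * m with hE2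
  have e1 : ((d : ℝ) - 1) * (p - 2) / 2 - s * p + κ * p * max 1 (p - 2) / (p - 1) = E1 := by
    rw [hmM, hE1, hκ]
    field_simp
    ring
  have e2 : ((d : ℝ) - 1) * (p - 2) / 2 - s * p + (κ * p - ((d : ℝ) - 2) * m) = E2 := by
    rw [hE2, hκ]
    field_simp
    ring
  have n1 : E1 < 0 := by
    rw [hE1, sub_neg, lt_div_iff₀ hp1]
    have : p * (σ * (p - 1)) < p * (κ * m) := mul_lt_mul_of_pos_left h2 hp0
    linarith
  have n2 : E2 < 0 := by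
    rw [hE2]
    linarith
  obtain ⟨δ, hδ, hδ1, hδ2⟩ : ∃ δ : ℝ, 0 < δ ∧ E1 ≤ -(2 * δ) ∧ E2 ≤ -(2 * δ) := by
    refine ⟨min (-E1) (-E2) / 2, by
      have := lt_min (neg_pos.mpr n1) (neg_pos.mpr n2)
      positivity, ?_, ?_⟩
    · have := min_le_left (-E1) (-E2)
      linarith
    · have := min_le_right (-E1) (-E2)
      linarith
  refine ⟨δ, hδ, 2 * (1 + 1 / δ), by positivity, fun lam hl => ?_⟩
  have hl0 : 0 < lam := by linarith
  have hlog : 1 + Real.log lam ≤ (1 + 1 / δ) * lam ^ δ := by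
    have h3 := Real.log_le_rpow_div hl0.le hδ
    have h4 : 1 ≤ lam ^ δ := Real.one_le_rpow hl hδ.le
    calc 1 + Real.log lam ≤ lam ^ δ + lam ^ δ / δ := add_le_add h4 h3
      _ = _ := by ring
  have hlog0 : 0 ≤ 1 + Real.log lam := by
    have := Real.log_nonneg hl
    linarith
  unfold xp
  rw [mul_assoc, mul_add, ← Real.rpow_add hl0, ← Real.rpow_add hl0, e1, e2]
  calc (1 + Real.log lam) * (lam ^ E1 + lam ^ E2)
      ≤ ((1 + 1 / δ) * lam ^ δ) * (lam ^ (-(2 * δ)) + lam ^ (-(2 * δ))) := by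
        gcongr
    _ = 2 * (1 + 1 / δ) * (lam ^ δ * lam ^ (-(2 * δ))) := by ring
    _ = _ := by
        rw [← Real.rpow_add hl0]
        congr 2
        ring

lemma xp_shift (d : ℕ) (p s κ lam : ℝ) (hl : 0 < lam) :
    xp d p (s - 1) κ lam = lam ^ p * xp d p s κ lam := by
  unfold xp
  rw [show ((d : ℝ) - 1) * (p - 2) / 2 - (s - 1) * p = p + (((d : ℝ) - 1) * (p - 2) / 2 - s * p) by
    ring, Real.rpow_add hl]
  ring

theorem pf_PFIN (h : T_ONF) : T_PFIN := by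
  intro d p σ s hd hp h1 h2 h3
  have hp0 : 0 < p := by linarith
  have hp1 : 1 ≤ p := by linarith
  set κ := s + σ - ((d : ℝ) - 1) * (1 / 2 - 1 / p) with hκ
  have hκ0 : 0 < κ := by rw [hκ]; linarith
  obtain ⟨δ, hδ, A, hA, hxp⟩ := xp_bound d p σ s hp h1 h3
  rw [← hκ] at hxp
  obtain ⟨C₀, hC₀⟩ := h d p s κ (fun ξ : EE d => (((1 : ℝ) * chi ‖ξ‖ : ℝ) : ℂ)) hd hp hκ0 sym_ct
  obtain ⟨C₁, hC₁⟩ := h d p (s - 1) κ bv hd hp hκ0 sym_bv
  set D : ℝ≥0 := (2 ^ p : ℝ).toNNReal * (C₀ + C₁) * A.toNNReal with hD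
  obtain ⟨C, hC⟩ := Pool.Agent.H73.LS.both (Pool.Agent.H94.LS.lowf Pool.Agent.H58.LS.kbv)
    Pool.Agent.H19.LS.PLE_proof Pool.Agent.H19.LS.YG_proof d (by omega) p δ (s - κ) (s - 1 - κ) hp1 hδ D
  refine ⟨2 * C, fun u₀ u₁ g hg hu₀ hu₁ => ?_⟩
  set G := Pool.Agent.H84.BR.CD.sobNorm p (-κ) g with hG
  set P₀ := Pool.Agent.H84.BR.CD.sobNorm p (s - κ) u₀ with hP₀
  set P₁ := Pool.Agent.H84.BR.CD.sobNorm p (s - 1 - κ) u₁ with hP₁
  have hsob : ∀ (r : ℝ) (f : EE d → ℂ), ∫⁻ x, ‖Pool.Agent.H84.BR.CD.besS r f x‖ₑ ^ p =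
      Pool.Agent.H84.BR.CD.sobNorm p r f ^ p := fun r f =>
    (Pool.Agent.H73.LS.eLp_pow p hp0 _).symm
  have hdat : Pool.Agent.H84.BR.CD.datN p σ u₀ u₁ = P₀ + P₁ := by
    unfold Pool.Agent.H84.BR.CD.datN
    rw [hP₀, hP₁, hκ]
    congr 2 <;> ring
  have hgg : Pool.Agent.H84.BR.CD.sobNorm p (((d : ℝ) - 1) * (1 / 2 - 1 / p) - σ - s) g = G := by
    rw [hG, hκ]
    congr 1
    ring
  have hDD : ∀ (K : ℝ≥0), K ≤ C₀ + C₁ → ∀ (lam : ℝ) (B : ℝ≥0∞), 1 ≤ lam →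
      ENNReal.ofReal (2 ^ p) * (K * ENNReal.ofReal (xp d p s κ lam) * B) ≤
        D * ENNReal.ofReal (lam ^ (-δ)) * B := by
    intro K hK lam B hl
    have h5 : ENNReal.ofReal (xp d p s κ lam) ≤ ENNReal.ofReal A * ENNReal.ofReal (lam ^ (-δ)) := by
      rw [← ENNReal.ofReal_mul hA]
      exact ENNReal.ofReal_le_ofReal (hxp lam hl)
    have h6 : (D : ℝ≥0∞) = ENNReal.ofReal (2 ^ p) * ((C₀ + C₁ : ℝ≥0) : ℝ≥0∞) *
        ENNReal.ofReal A := by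
      rw [hD, ENNReal.coe_mul, ENNReal.coe_mul]
      rfl
    have h7 : (K : ℝ≥0∞) ≤ ((C₀ + C₁ : ℝ≥0) : ℝ≥0∞) := ENNReal.coe_le_coe.mpr hK
    rw [h6]
    calc ENNReal.ofReal (2 ^ p) * (K * ENNReal.ofReal (xp d p s κ lam) * B)
        ≤ ENNReal.ofReal (2 ^ p) * (((C₀ + C₁ : ℝ≥0) : ℝ≥0∞) *
          (ENNReal.ofReal A * ENNReal.ofReal (lam ^ (-δ))) * B) := by gcongr
      _ = _ := by ring
  have hPG : ∀ P : ℝ≥0∞, P ^ p + G ^ p ≤ (P + G) ^ p := fun P =>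
    ENNReal.add_rpow_le_rpow_add P G hp1
  have key := hC u₀ u₁ (P₀ + G) (P₁ + G) (by
      have := hsob (s - κ) u₀
      refine (le_of_eq this).trans ?_
      exact ENNReal.rpow_le_rpow le_self_add hp0.le) (by
      have := hsob (s - 1 - κ) u₁
      refine (le_of_eq this).trans ?_
      exact ENNReal.rpow_le_rpow le_self_add hp0.le) ?_ ?_
  · unfold Pool.Agent.H84.BR.CD.solNorm
    rw [hdat, hgg]
    refine le_trans key ?_
    push_cast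
    calc (C : ℝ≥0∞) * (P₀ + G + (P₁ + G)) ≤ C * (2 * (P₀ + P₁ + G)) := by
          gcongr
          calc P₀ + G + (P₁ + G) = P₀ + P₁ + 2 * G := by ring
            _ ≤ 2 * (P₀ + P₁) + 2 * G := by
                gcongr
                rw [two_mul]
                exact le_self_add
            _ = _ := by ring
      _ = _ := by ring
  · intro lam hl
    have hl0 : 0 < lam := by linarith
    refine le_trans ?_ (hDD C₀ le_self_add lam ((P₀ + G) ^ p) hl)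
    have h8 := half_piece' (c := fun t ξ => Real.cos (2 * Real.pi * t * ‖ξ‖) * chi (‖ξ‖ / lam))
      sym_ct p hp1 lam 1 zero_le_one (1 / 2) (1 / 2) (by norm_num) (by norm_num) (fun t ξ => by
        have h1 : ‖lam⁻¹ • ξ‖ = ‖ξ‖ / lam := by
          rw [norm_smul, norm_inv, Real.norm_eq_abs, abs_of_pos hl0]
          ring
        beta_reduce
        rw [h1, e_eq, e_eq]
        have h2 : 2 * Real.pi * (1 * t * ‖ξ‖) = 2 * Real.pi * t * ‖ξ‖ := by ring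
        have h3 : 2 * Real.pi * (-1 * t * ‖ξ‖) = -(2 * Real.pi * t * ‖ξ‖) := by ring
        rw [h2, h3, Real.cos_neg, Real.sin_neg]
        push_cast
        ring) u₀
      (C₀ * ENNReal.ofReal (xp d p s κ lam) * (P₀ + G) ^ p) (fun ε hε => by
        refine (hC₀ lam ε u₀ g hl hε hg hu₀).trans (mul_le_mul' le_rfl ?_)
        rw [hsob, hsob]
        exact hPG P₀)
    rw [mul_one] at h8
    exact h8
  · intro lam hl
    have hl0 : 0 < lam := by linarith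
    refine le_trans ?_ (hDD C₁ le_add_self lam ((P₁ + G) ^ p) hl)
    have hpi := Real.pi_pos
    have h8 := half_piece' (c := fun t ξ =>
        Real.sin (2 * Real.pi * t * ‖ξ‖) / (2 * Real.pi * ‖ξ‖) * chi (‖ξ‖ / lam))
      sym_bv p hp1 lam lam⁻¹ (by positivity) (-Complex.I * ((lam⁻¹ / (4 * Real.pi) : ℝ) : ℂ))
      (Complex.I * ((lam⁻¹ / (4 * Real.pi) : ℝ) : ℂ)) (by
        rw [norm_mul, norm_neg, Complex.norm_I, one_mul, Complex.norm_real, Real.norm_eq_abs,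
          abs_of_nonneg (by positivity)]
        refine div_le_self (by positivity) ?_
        have := Real.pi_gt_three
        linarith) (by
        rw [norm_mul, Complex.norm_I, one_mul, Complex.norm_real, Real.norm_eq_abs,
          abs_of_nonneg (by positivity)]
        refine div_le_self (by positivity) ?_
        have := Real.pi_gt_three
        linarith) (fun t ξ => by
        have h1 : ‖lam⁻¹ • ξ‖ = ‖ξ‖ / lam := by
          rw [norm_smul, norm_inv, Real.norm_eq_abs, abs_of_pos hl0]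
          ring
        have h1' : (‖ξ‖ / lam)⁻¹ = lam * ‖ξ‖⁻¹ := by
          rw [inv_div, div_eq_mul_inv]
        beta_reduce
        unfold bv
        rw [h1, h1', e_eq, e_eq]
        have h2 : 2 * Real.pi * (1 * t * ‖ξ‖) = 2 * Real.pi * t * ‖ξ‖ := by ring
        have h3 : 2 * Real.pi * (-1 * t * ‖ξ‖) = -(2 * Real.pi * t * ‖ξ‖) := by ring
        rw [h2, h3, Real.cos_neg, Real.sin_neg]
        have h4 : Real.sin (2 * Real.pi * t * ‖ξ‖) / (2 * Real.pi * ‖ξ‖) =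
            lam⁻¹ / (4 * Real.pi) * (lam * ‖ξ‖⁻¹) * (2 * Real.sin (2 * Real.pi * t * ‖ξ‖)) := by
          rw [div_eq_mul_inv, mul_inv]
          field_simp
          ring
        rw [h4]
        push_cast
        ring_nf
        rw [Complex.I_sq]
        ring) u₁
      (C₁ * ENNReal.ofReal (lam ^ p * xp d p s κ lam) * (P₁ + G) ^ p) (fun ε hε => by
        have h9 := hC₁ lam ε u₁ g hl hε hg hu₁
        rw [xp_shift d p s κ lam hl0, hsob, hsob] at h9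
        exact h9.trans (mul_le_mul' le_rfl (hPG P₁)))
    refine h8.trans (le_of_eq ?_)
    have h10 : (2 * lam⁻¹) ^ p = 2 ^ p * (lam ^ p)⁻¹ := by
      rw [Real.mul_rpow (by norm_num) (by positivity), Real.inv_rpow hl0.le]
    rw [h10, ENNReal.ofReal_mul (by positivity), ENNReal.ofReal_mul (by positivity)]
    have h11 : ENNReal.ofReal (lam ^ p)⁻¹ * ENNReal.ofReal (lam ^ p) = 1 := by
      rw [← ENNReal.ofReal_mul (by positivity), inv_mul_cancel₀ (by positivity), ENNReal.ofReal_one]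
    calc ENNReal.ofReal (2 ^ p) * ENNReal.ofReal (lam ^ p)⁻¹ *
          (C₁ * (ENNReal.ofReal (lam ^ p) * ENNReal.ofReal (xp d p s κ lam)) * (P₁ + G) ^ p)
        = ENNReal.ofReal (2 ^ p) * (ENNReal.ofReal (lam ^ p)⁻¹ * ENNReal.ofReal (lam ^ p)) *
          (C₁ * ENNReal.ofReal (xp d p s κ lam) * (P₁ + G) ^ p) := by ring
      _ = _ := by rw [h11]; ring

end Pool.Agent.H82.PD
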