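import Pool.Agent.H94.C1.Chain
import Pool.Agent.H1.PD.BKL
import Pool.Agent.H65.PD.BSC
import Pool.Agent.H20.PD.LCK
import Pool.Agent.H20.PD.PSI
import Pool.Agent.H38.PD.MAJ
import Pool.Agent.H65.PD.RSC
import Pool.Agent.H38.PD.RVA
import Pool.Agent.H35.PD.RVB
import Pool.Agent.H9.PD.SHD
import Pool.Agent.H82.PD.ONF
import Pool.Agent.H82.PD.PFIN

/-!
Local smoothing for data with a positivity property, all dimensions: the modules put together.
-/

set_option autoImplicit false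

namespace Pool.Agent.H82.PD

open Pool.Agent.H94.C1

theorem lck : T_LCK := Pool.Agent.H20.PD.pf_LCK Chain.kis Chain.k1
theorem rsc : T_RSC := Pool.Agent.H65.PD.pf_RSC lck Chain.scl
theorem shd : T_SHD := Pool.Agent.H9.PD.pf_SHD
theorem rva : T_RVA := Pool.Agent.H38.PD.pf_RVA shd
theorem rvb : T_RVB := Pool.Agent.H35.PD.pf_RVB shd
theorem psi : T_PSI := Pool.Agent.H20.PD.pf_PSI
theorem maj : T_MAJ := Pool.Agent.H38.PD.pf_MAJ
theorem bsc : T_BSC := Pool.Agent.H65.PD.pf_BSC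
theorem bkl : T_BKL := Pool.Agent.H1.PD.pf_BKL

theorem onf : T_ONF := pf_ONF rsc rva rvb psi maj bsc bkl

theorem pfin : T_PFIN := pf_PFIN onf

end Pool.Agent.H82.PD
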