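import Pool.Agent.H94.C1.Targets
import Pool.Agent.H84.BR.ClaimDefs

/-!
Local smoothing for data with a positivity property, all dimensions: definitions.
-/

set_option autoImplicit false

namespace Pool.Agent.H82.PD

open MeasureTheory Set FourierTransform Pool.Agent.H82.KL Pool.Agent.H94.C1
open scoped ENNReal NNReal SchwartzMap

/-- `∫_{|x-y|≤B} g(y) R²/(1+|x-y|²) dy` -/
noncomputable def kaB {d : ℕ} (B R : ℝ) (g : EE d → ℝ≥0∞) (x : EE d) : ℝ≥0∞ :=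
  ∫⁻ y in Metric.closedBall x B, g y * (ENNReal.ofReal (R ^ 2) * wt (x - y))

/-- `∫_{|x-y|≤8} g(y) |x-y|^(-2) dy` -/
noncomputable def k2B {d : ℕ} (g : EE d → ℝ≥0∞) (x : EE d) : ℝ≥0∞ :=
  ∫⁻ y in Metric.closedBall x 8, g y * (‖x - y‖ₑ ^ 2)⁻¹

/-- the local form of the right side of the kernel inequality -/
noncomputable def KB {d : ℕ} (p : ℝ) (F : EE d → ℝ≥0∞) : ℝ≥0∞ :=
  if p ≤ 3 then ∫⁻ x, F x ^ 2 * (k2B F x) ^ (p - 2)
  else ∫⁻ x, F x ^ 2 * k2B (fun y => F y ^ (p - 2)) x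

/-- `∫_{|x-y|≤b} F(y) dy` -/
noncomputable def ba {d : ℕ} (b : ℝ) (F : EE d → ℝ≥0∞) (x : EE d) : ℝ≥0∞ :=
  ∫⁻ y in Metric.closedBall x b, F y

/-- `∫ λ^d (1+λ|x-y|)^(-(d+1)) G(y) dy` -/
noncomputable def cp {d : ℕ} (lam : ℝ) (G : EE d → ℝ≥0∞) (x : EE d) : ℝ≥0∞ :=
  ∫⁻ y, ENNReal.ofReal (lam ^ d * ((1 + lam * ‖x - y‖) ^ (d + 1))⁻¹) * G y

/-- nonnegative real values -/
def NN {d : ℕ} (f : EE d → ℂ) : Prop := ∀ x, (f x).im = 0 ∧ 0 ≤ (f x).re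

/-- the exponent of the frequency in the one frequency estimate -/
noncomputable def xp (d : ℕ) (p s κ : ℝ) (lam : ℝ) : ℝ :=
  (1 + Real.log lam) * lam ^ (((d : ℝ) - 1) * (p - 2) / 2 - s * p) *
    (lam ^ (κ * p * max 1 (p - 2) / (p - 1)) + lam ^ (κ * p - ((d : ℝ) - 2) * min 1 (p - 2)))

end Pool.Agent.H82.PD
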